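import Pool.Agent.H77.KG.Targets

/-!
# Row MAN (board kgr_modules)
-/

set_option autoImplicit false

open Set Pool.Agent.H77.BC Pool.Agent.H77.BD Pool.Agent.H77.KG

namespace Pool.Agent.H77.KGR

private lemma gtm (hGTM : T_GTM) {M : Type} (U : RU M) {G S : Type} [Group G] [MulAction G S]
    [Cod M G] [Cod M S] [DG U G] [Ful U S] [DA U G S] {a b : ℕ} (h : a ≤ b) (hb : GT U G S b) :
    GT U G S a := by
  induction b, h using Nat.le_induction with
  | base => exact hb
  | succ n hn ih => exact ih (hGTM U n hb)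

/-- the case of a transitive abelian normal subgroup -/
private lemma caseA (hREG : T_REG) (hGTS : T_GTS) (hGTM : T_GTM) (hGTQ : T_GTQ) (hMOD : T_MOD)
    (hQKK : T_QKK) (P : ∀ L : Type, Group L → Prop) (hP : Good P)
    (C : ∀ M : Type, RU M → Prop) (hC : QClosed C) {M : Type} (U : RU M) (hU : C M U)
    {G S : Type} [Group G] [MulAction G S] [Cod M G] [Cod M S] [DG U G] [Ful U S] [DA U G S]
    (hc : Conn U (⊤ : Subgroup G)) (hf : FaithfulSMul G S) (hk : KGr P G) (n t : ℕ)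
    (hn : U.R (univ : Set S) = n) (h1 : 1 ≤ n) (hg : GT U G S t) (ht : n + 2 ≤ t)
    (A : Subgroup G) (hA : A.Normal) (hAc : Conn U A) (hAa : ∀ a ∈ A, ∀ b ∈ A, a * b = b * a)
    (htr : ∀ x y : S, ∃ a ∈ A, a • x = y) : False := by
  obtain ⟨x, _, hx⟩ := hGTS U (n + 1) (gtm hGTM U ht hg)
  obtain ⟨V, iV, iD, cV, j, p, hd1, hd2, hd3, hd4, hd5, hd6, hj, hjd, hje, hp⟩ :=
    hREG U hc hf A hA hAc hAa htr x
  let E := Equiv.ofBijective j hj
  have hq1 : ∀ s, j (E.symm s) = s := fun s => E.apply_symm_apply s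
  have hq2 : ∀ v, E.symm (j v) = v := fun v => E.symm_apply_apply v
  have hqd : DFn U (fun s : S => E.symm s) := by
    have h2 : {z : S × V | z.2 = E.symm z.1} = {z : S × V | z.1 = j z.2} := by
      ext z
      simp only [mem_ofPred_eq]
      constructor
      · intro h; rw [h, hq1]
      · intro h; rw [h, hq2]
    unfold DFn
    rw [h2]
    exact D_eqf DFn_fst (DFn_comp (g := j) hjd DFn_snd)
  have hgt : GT U (MulAction.stabilizer G x) V (n + 1) := by
    refine hGTQ U (MonoidHom.id _) (fun s : S => E.symm s) hqd E.symm.surjective ?_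
      ⟨0, fun v => ?_⟩ _ hx
    · intro g s
      have h2 := hje g (E.symm s)
      rw [hq1] at h2
      change E.symm (g • s) = g • E.symm s
      rw [← h2, hq2]
    · have h2 : {s : S | E.symm s = v} = {j v} := by
        ext s
        simp only [mem_ofPred_eq, mem_singleton_iff]
        constructor
        · intro h; rw [← h, hq1]
        · intro h; rw [h, hq2]
      rw [h2]
      exact ((Pool.Agent.H77.BCP.a_RKA U).fin (D_singleton _) ⟨_, rfl⟩).2 (finite_singleton _)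
  have hr : U.R (univ : Set V) = n := by
    have h2 := (Pool.Agent.H77.BCP.a_RKB U).inj (X := (univ : Set V)) (f := j) Ful.full hjd
      ⟨0, mem_univ _⟩ hj.1.injOn
    rw [image_univ, hj.2.range_eq] at h2
    rw [← h2]; exact hn
  have hk2 : KGr P (MulAction.stabilizer G x) := hQKK P hP p hp hk
  refine hMOD P hP C hC U hU hk2 hd3 hd6 (by rw [hr]; exact h1) ?_
  rw [hr]; exact hgt

theorem pf_MAN (hFI1 : T_FI1) (hABN : T_ABN) (hREG : T_REG) (hGTS : T_GTS) (hGTM : T_GTM)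
    (hGTQ : T_GTQ) (hMOD : T_MOD) (hQMN : T_QMN) (hQKK : T_QKK) (hHMI : T_HMI) (hFCO : T_FCO)
    (hORB : T_ORB) (hEXA : T_EXA) (hEXB : T_EXB) : T_MAN := by
  intro P hP C hC M U hU G S _ _ _ _ _ _ _ hc htr hf hk n
  induction n using Nat.strong_induction_on generalizing M U G S with
  | _ n ih =>
  intro t hn h1 hg ht
  obtain ⟨I, hI, L, iL, π, hπ, hs, hL⟩ := id hk
  by_cases hfin : (π.ker : Set G).Finite
  · exact hFI1 P hP C hC U hU π hc htr hf hL hπ hfin n t hn h1 hg ht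
  exfalso
  obtain ⟨A, hA, hAc, hAi, hAa⟩ := hABN U hc π.ker inferInstance hs hfin
  by_cases hAt : ∀ x y : S, ∃ a ∈ A, a • x = y
  · exact caseA hREG hGTS hGTM hGTQ hMOD hQKK P hP C hC U hU hc hf hk n t hn h1 hg ht A hA
      hAc hAa hAt
  -- the orbits of A
  let E : Setoid S := ⟨fun x y => ∃ a ∈ A, y = a • x, fun x => ⟨1, A.one_mem, (one_smul G x).symm⟩,
    fun {x y} ⟨a, ha, h⟩ => ⟨a⁻¹, A.inv_mem ha, by rw [h, inv_smul_smul]⟩,
    fun {x y z} ⟨a, ha, h⟩ ⟨b, hb, h'⟩ => ⟨b * a, A.mul_mem hb ha, by rw [h', h, mul_smul]⟩⟩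
  have hEd : U.D {z : S × S | E.r z.1 z.2} := by
    refine D_exists (p := fun (z : S × S) (a : G) => a ∈ A ∧ z.2 = a • z.1) ?_
    refine D_and ?_ ?_
    · exact D_subst (p := fun a : G => a ∈ A) hAc.1 DFn_snd
    · exact D_eqf (DFn_comp DFn_snd DFn_fst) (DFn_act DFn_snd (DFn_comp DFn_fst DFn_fst))
  have hEi : ∀ (g : G) (x y : S), E.r x y → E.r (g • x) (g • y) := by
    rintro g x y ⟨a, ha, h⟩
    refine ⟨g * a * g⁻¹, hA.conj_mem a ha g, ?_⟩
    rw [h, mul_smul, mul_smul, inv_smul_smul]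
  obtain ⟨M', U', e, h, G', S', iG, iA, cG, cS, p, q, hU', hdg, hfs, hda, hff, hQt, hq⟩ :=
    hQMN C hC U hU E hEd hEi
  let cH : Cod M' G := codE h.inj
  let cSS : Cod M' S := codE h.inj
  have dH : DG U' G := (hEXB U U' e h).2.2.1
  have dV : Ful U' S := (hEXB U U' e h).1
  have dA : DA U' G S := (hEXB U U' e h).2.2.2.2
  have sH : Same U U' G := (hEXA U U' e h (α := G) (β := G) (γ := G)).1
  have sV : Same U U' S := (hEXA U U' e h (α := S) (β := S) (γ := S)).1
  have sF : ∀ k : ℕ, Same U U' (Fin k → S) :=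
    (hEXA U U' e h (α := S) (β := S) (γ := S)).2.2.2
  have hR' := Pool.Agent.H77.BCP.a_RKA U'
  have hB' := Pool.Agent.H77.BCP.a_RKB U'
  have hR := Pool.Agent.H77.BCP.a_RKA U
  obtain ⟨s0, _⟩ := id hg
  let x0 : S := s0 ⟨0, by omega⟩
  -- fibres
  have hfib : ∀ x : S, {z : S | q z = q x} = {z : S | ∃ a ∈ A, z = a • x} := by
    intro x
    ext z
    simp only [mem_ofPred_eq]
    rw [eq_comm, hq]
    exact Iff.rfl
  have hod : ∀ x : S, U'.D {z : S | ∃ a ∈ A, z = a • x} := by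
    intro x
    refine D_exists (p := fun (z : S) (a : G) => a ∈ A ∧ z = a • x) ?_
    refine D_and ?_ ?_
    · exact D_subst (p := fun a : G => a ∈ A) ((sH.D _).2 hAc.1) DFn_snd
    · exact D_eqf DFn_fst (DFn_act DFn_snd (DFn_const _))
  have hrk : ∀ x : S, U'.R {z : S | ∃ a ∈ A, z = a • x} = U'.R {z : S | ∃ a ∈ A, z = a • x0} := by
    intro x
    obtain ⟨g, hgx⟩ := htr.exists_smul_eq x0 x
    have h2 : {z : S | ∃ a ∈ A, z = a • x} = (fun z => g • z) '' {z : S | ∃ a ∈ A, z = a • x0} := by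
      ext z
      constructor
      · rintro ⟨a, ha, rfl⟩
        refine ⟨(g⁻¹ * a * g) • x0, ⟨_, ?_, rfl⟩, ?_⟩
        · have := hA.conj_mem a ha g⁻¹
          rwa [inv_inv] at this
        · change g • (g⁻¹ * a * g) • x0 = a • x
          rw [← hgx, mul_smul, mul_smul, smul_inv_smul]
      · rintro ⟨z', ⟨a, ha, rfl⟩, rfl⟩
        refine ⟨g * a * g⁻¹, hA.conj_mem a ha g, ?_⟩
        change g • a • x0 = _
        rw [← hgx, mul_smul, mul_smul, inv_smul_smul]
    rw [h2]
    exact hB'.inj (hod x0) (DFn_act (DFn_const _) DFn_id) ⟨x0, 1, A.one_mem, (one_smul G x0).symm⟩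
      (MulAction.injective g).injOn
  set r := U'.R {z : S | ∃ a ∈ A, z = a • x0} with hrdef
  have hfr : ∀ y : S', U'.R {z : S | q z = y} = r := by
    intro y
    obtain ⟨x, rfl⟩ := hQt.sq y
    rw [hfib, hrk]
  have hnS : U'.R (univ : Set S) = n := by
    rw [sV.R _ Ful.full ⟨x0, mem_univ _⟩]; exact hn
  have hadd : n = U'.R (univ : Set S') + r := by
    have h2 := hB'.fib_eq (X := (univ : Set S)) (f := q) (n := r) Ful.full hQt.dq
      ⟨x0, mem_univ _⟩ (fun b _ => by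
        have h3 : {a : S | a ∈ (univ : Set S) ∧ q a = b} = {z : S | q z = b} := by
          ext z; simp
        rw [h3]; exact hfr b)
    rw [image_univ, hQt.sq.range_eq, hnS] at h2
    exact h2
  have hr1 : 1 ≤ r := by
    by_contra hcon
    have h0 : r = 0 := by omega
    have hfix : ∀ x : S, ∀ a ∈ A, a • x = x := by
      intro x
      refine hFCO U A x hAc ?_
      have h2 : U'.R {z : S | ∃ a ∈ A, z = a • x} = 0 := by rw [hrk x]; exact h0
      exact (hR'.fin (hod x) ⟨x, 1, A.one_mem, (one_smul G x).symm⟩).1 h2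
    refine hAi ((finite_singleton (1 : G)).subset fun a ha => ?_)
    rw [mem_singleton_iff]
    exact hf.eq_of_smul_eq_smul fun x => by rw [hfix x a ha, one_smul]
  have hcG : Conn U' (⊤ : Subgroup G') := by
    have h2 := ((hHMI U' p hQt.dp).1 ⊤ (by rw [Subgroup.coe_top]; exact Ful.full)).2.2
      ((sH.conn ⊤).2 hc)
    rwa [Subgroup.map_top_of_surjective p hQt.sp] at h2
  have htr' : MulAction.IsPretransitive G' S' := ⟨fun y z => by
    obtain ⟨x, rfl⟩ := hQt.sq y
    obtain ⟨w, rfl⟩ := hQt.sq z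
    obtain ⟨g, rfl⟩ := htr.exists_smul_eq x w
    exact ⟨p g, (hQt.eqv g x).symm⟩⟩
  have hn' : 1 ≤ U'.R (univ : Set S') := by
    by_contra hcon
    have h0 : U'.R (univ : Set S') = 0 := by omega
    have hfinS : (univ : Set S').Finite :=
      (hR'.fin Ful.full ⟨q x0, mem_univ _⟩).1 h0
    apply hAt
    intro x y
    have h2 := hFCO U' (⊤ : Subgroup G') (q x) hcG (hfinS.subset (subset_univ _))
    obtain ⟨g, hgy⟩ := htr'.exists_smul_eq (q x) (q y)
    have h3 : q x = q y := by rw [← hgy, h2 g trivial]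
    obtain ⟨a, ha, hy⟩ := (hq x y).1 h3
    exact ⟨a, ha, hy.symm⟩
  have hgV : GT U' G S t := (sF _).gt.2 hg
  have hgQ : GT U' G' S' t := hGTQ U' p q hQt.dq hQt.sq hQt.eqv ⟨r, hfr⟩ _ hgV
  have hkG : KGr P G' := hQKK P hP p hQt.sp hk
  have hfin' := ih (U'.R (univ : Set S')) (by omega) U' hU' hcG htr' hff hkG t rfl hn' hgQ
    (by omega)
  omega

end Pool.Agent.H77.KGR
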