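import Pool.Agent.H77.KG.Targets

/-!
# Rows MD1, FNK (board kgr_modules)
-/

set_option autoImplicit false

open Set Pool.Agent.H77.BC Pool.Agent.H77.BD Pool.Agent.H77.KG

namespace Pool.Agent.H77.KGR

theorem pf_MD1 (hABN : T_ABN) (hCLI : T_CLI) (hUNI : T_UNI) (hMNC : T_MNC) : T_MD1 := by
  intro M U H V _ _ _ _ _ _ _ _ hc hm hf R hR hs hi
  obtain ⟨A, hA, hAc, hAi, hAa⟩ := hABN U hc R hR hs hi
  have h1 := hCLI U hc hm A hA hAc hAa
  have h2 : ∀ t ∈ A, ∀ g : H, t * g = g * t := by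
    intro t ht g
    have h3 : g * t * g⁻¹ = t := hf.eq_of_smul_eq_smul fun v => h1 g t ht v
    have h4 := congrArg (· * g) h3
    simp only [inv_mul_cancel_right] at h4
    exact h4.symm
  refine hUNI U hm A hAc h2 ?_
  by_contra hn
  push Not at hn
  refine hAi ((Set.finite_singleton (1 : H)).subset fun t ht => ?_)
  rw [mem_singleton_iff]
  refine hf.eq_of_smul_eq_smul fun v => ?_
  rw [hn t ht v, one_smul]

theorem pf_FNK (hMAN : T_MAN) (hGSA : T_GSA) : T_FNK := by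
  intro C hC G S _ _ U hU hP hc ht hf hk hn t hg
  have _ := hP.dg
  have _ := hP.fulS
  have _ : DA U G S := ⟨hP.dact⟩
  have hg' : GT U G S t := hg
  by_cases h : U.R (univ : Set S) + 2 ≤ t
  · obtain ⟨h1, h2⟩ := hMAN SA hGSA C hC U hU hc ht hf hk _ t rfl hn hg' h
    exact ⟨h1.le, fun _ => h2⟩
  · exact ⟨by omega, fun e => by omega⟩

end Pool.Agent.H77.KGR
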