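import Pool.Agent.H77.KG.Targets

/-!
# Row MOD (board kgr_modules)
-/

set_option autoImplicit false

open Set Pool.Agent.H77.BC Pool.Agent.H77.BD Pool.Agent.H77.KG

namespace Pool.Agent.H77.KGR

private lemma exmax {α : Type} (p : α → Prop) (f : α → ℕ) (B : ℕ) (hB : ∀ a, p a → f a ≤ B)
    (hne : ∃ a, p a) : ∃ a, p a ∧ ∀ b, p b → f b ≤ f a := by
  classical
  have h : ∃ k, ∃ a, p a ∧ B - f a = k := by
    obtain ⟨a, ha⟩ := hne
    exact ⟨_, a, ha, rfl⟩
  obtain ⟨a, ha, hk⟩ := Nat.find_spec h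
  refine ⟨a, ha, fun b hb => ?_⟩
  have h1 := Nat.find_min' h ⟨b, hb, rfl⟩
  have h2 := hB a ha
  have h3 := hB b hb
  omega

private lemma gtm (hGTM : T_GTM) {M : Type} (U : RU M) {G S : Type} [Group G] [MulAction G S]
    [Cod M G] [Cod M S] [DG U G] [Ful U S] [DA U G S] {a b : ℕ} (h : a ≤ b) (hb : GT U G S b) :
    GT U G S a := by
  induction b, h using Nat.le_induction with
  | base => exact hb
  | succ n hn ih => exact ih (hGTM U n hb)

theorem pf_MOD (hQMD : T_QMD) (hQKK : T_QKK) (hMD1 : T_MD1) (hMD2 : T_MD2) (hGTQ : T_GTQ)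
    (hGTM : T_GTM) (hHMI : T_HMI) (hAHM : T_AHM) (hADT : T_ADT) (hEXA : T_EXA)
    (hEXB : T_EXB) : T_MOD := by
  intro P hP C hC M U hU H V _ _ _ _ _ _ _ _ hk hc hV h1 hg
  have hR := Pool.Agent.H77.BCP.a_RKA U
  obtain ⟨W, ⟨hWd, hWi, hWt⟩, hmax⟩ := exmax
    (fun W : AddSubgroup V => U.D (W : Set V) ∧ Iv (⊤ : Subgroup H) W ∧ W ≠ ⊤)
    (fun W => U.R (W : Set V)) (U.R (univ : Set V))
    (fun W hW => hR.mono hW.1 Ful.full ⟨0, W.zero_mem⟩ (subset_univ _)) (by
      refine ⟨⊥, ?_, ?_, ?_⟩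
      · rw [AddSubgroup.coe_bot]; exact D_singleton _
      · intro t _ v hv
        rw [AddSubgroup.mem_bot] at hv ⊢
        rw [hv, smul_zero]
      · intro h0
        have h2 : (univ : Set V).Finite := by
          rw [← AddSubgroup.coe_top, ← h0, AddSubgroup.coe_bot]
          exact Set.finite_singleton _
        have h3 := (hR.fin (Ful.full : U.D (univ : Set V)) ⟨0, mem_univ _⟩).2 h2
        omega)
  have hWlt : U.R (W : Set V) < U.R (univ : Set V) := by
    by_contra hcon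
    push Not at hcon
    exact hWt (hV.2 W le_top hWd (by rw [AddSubgroup.coe_top]; exact hcon))
  obtain ⟨M', U', e, h, G', V', iG, iV, iD, cG, cV, p, q, hU', hdg, hab, hda, hff, hQt, hq⟩ :=
    hQMD C hC U hU W hWd hWi
  letI cH : Cod M' H := codE h.inj
  letI cVV : Cod M' V := codE h.inj
  have dH : DG U' H := (hEXB U U' e h).2.2.1
  have dV : DAb U' V := (hEXB U U' e h).2.2.2.1
  have dA : DA U' H V := (hEXB U U' e h).2.2.2.2
  have sH : Same U U' H := (hEXA U U' e h (α := H) (β := H) (γ := H)).1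
  have sV : Same U U' V := (hEXA U U' e h (α := V) (β := V) (γ := V)).1
  have sF : ∀ k : ℕ, Same U U' (Fin k → V) :=
    (hEXA U U' e h (α := V) (β := V) (γ := V)).2.2.2
  have hR' := Pool.Agent.H77.BCP.a_RKA U'
  have hB' := Pool.Agent.H77.BCP.a_RKB U'
  have hWd' : U'.D (W : Set V) := (sV.D _).2 hWd
  have hker : q.ker = W := by
    ext v; rw [AddMonoidHom.mem_ker]; exact hq v
  -- ranks
  have hrV : U'.R (univ : Set V) = U.R (univ : Set V) := sV.R _ Ful.full ⟨0, mem_univ _⟩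
  have hrW : U'.R (W : Set V) = U.R (W : Set V) := sV.R _ hWd ⟨0, W.zero_mem⟩
  have hrange : q.range = ⊤ := by
    rw [AddMonoidHom.range_eq_top]; exact hQt.sq
  have hadd : U.R (univ : Set V) = U'.R (univ : Set V') + U.R (W : Set V) := by
    have h2 := ((hAHM U' q hQt.dq).2 ⊤ (by rw [AddSubgroup.coe_top]; exact Ful.full)).2
      (by rw [hrange])
    rw [AddSubgroup.comap_top, AddSubgroup.coe_top, AddSubgroup.coe_top, hker, hrV, hrW] at h2
    exact h2
  -- the quotient is connected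
  have hcG : Conn U' (⊤ : Subgroup G') := by
    have h2 := ((hHMI U' p hQt.dp).1 ⊤ (by rw [Subgroup.coe_top]; exact Ful.full)).2.2
      ((sH.conn ⊤).2 hc)
    rwa [Subgroup.map_top_of_surjective p hQt.sp] at h2
  have hkG : KGr P G' := hQKK P hP p hQt.sp hk
  -- minimality
  have hinf : (univ : Set V').Infinite := by
    intro hfin
    have h3 := (hR'.fin (Ful.full : U'.D (univ : Set V')) ⟨0, mem_univ _⟩).2 hfin
    omega
  have hmn : Mn U' (⊤ : Subgroup G') (⊤ : AddSubgroup V') := by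
    refine ⟨by rw [AddSubgroup.coe_top]; exact Ful.full, fun _ _ _ _ => trivial,
      by rw [AddSubgroup.coe_top]; exact hinf, fun A _ hAd hAi hAt => ?_⟩
    have h2 := (hAHM U' q hQt.dq).2 A hAd
    have h3 := h2.2 (by rw [hrange]; exact le_top)
    rw [hker] at h3
    have h4 : U.D ((A.comap q : AddSubgroup V) : Set V) := (sV.D _).1 h2.1
    have h5 : Iv (⊤ : Subgroup H) (A.comap q) := by
      intro t _ v hv
      rw [AddSubgroup.mem_comap] at hv ⊢
      rw [hQt.eqv]
      exact hAi _ trivial _ hv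
    have h6 : A.comap q ≠ ⊤ := by
      intro h7
      apply hAt
      rw [eq_top_iff]
      intro y _
      obtain ⟨v, rfl⟩ := hQt.sq y
      have : v ∈ A.comap q := by rw [h7]; trivial
      exact this
    have h7 := hmax (A.comap q) ⟨h4, h5, h6⟩
    rw [← sV.R _ h4 ⟨0, AddSubgroup.zero_mem _⟩, ← hrW] at h7
    have h8 : U'.R (A : Set V') = 0 := by omega
    exact (hR'.fin hAd ⟨0, A.zero_mem⟩).1 h8
  -- generic transitivity
  have hgV : GT U' H V (U.R (univ : Set V) + 1) := (sF _).gt.2 hg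
  have hgQ : GT U' G' V' (U.R (univ : Set V) + 1) := by
    refine hGTQ U' p q hQt.dq hQt.sq hQt.eqv ⟨U'.R (W : Set V), fun y => ?_⟩ _ hgV
    obtain ⟨v0, rfl⟩ := hQt.sq y
    have h2 : {x : V | q x = q v0} = (fun v => v0 + v) '' (W : Set V) := by
      ext x
      constructor
      · intro hx
        refine ⟨x - v0, ?_, by simp⟩
        have h9 : q (x - v0) = 0 := by
          rw [map_sub, sub_eq_zero]; exact hx
        exact (hq _).1 h9
      · rintro ⟨v, hv, rfl⟩
        have h9 := (hq v).2 hv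
        simp only [mem_ofPred_eq, map_add, h9, add_zero]
    rw [h2]
    exact hB'.inj hWd' (DFn_aadd (DFn_const _) DFn_id) ⟨0, W.zero_mem⟩
      (fun a _ b _ hab => add_left_cancel hab)
  have hgF : GT U' G' V' (U'.R (univ : Set V') + 1) := gtm hGTM U' (by omega) hgQ
  obtain ⟨I, hI, L, iL, π, hπ, hs, hL⟩ := hkG
  by_cases hfin : (π.ker : Set G').Finite
  · exact hMD2 P hP C hC U' hU' π hcG hmn hff hL hπ hfin hgF
  · exact hMD1 U' hcG hmn hff π.ker inferInstance hs hfin hgF

end Pool.Agent.H77.KGR
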